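import Pool.Agent.H560.SQ.StmC

/-!
# The sieve in a window around a square (project SQ of helper560, task SIV; adapted from T2G)
-/

set_option autoImplicit false

namespace Pool.Agent.H337.SQ

open Polynomial Filter
open scoped Classical
open Pool.Agent.H985.Chow (mob)
open Pool.Agent.H985.Par (Sft)
open Pool.Agent.H694.Typ (PU mem_PU)
open Pool.Agent.H560.SQ

lemma mob_abs {K : Type} [Field K] (G : K[X]) : |(mob G : ℝ)| ≤ 1 := by
  unfold mob
  split_ifs
  · push_cast
    rw [abs_pow, abs_neg, abs_one, one_pow]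
  · simp

/-- **Task SIV.** -/
theorem siv (hr : Pool.Agent.H560.AR.S_rtQ) (hsw : Pool.Agent.H985.Par.S_sw) : S_siv := by
  intro K _ _ _ η hη
  obtain ⟨A, hA⟩ := hsw K 1 η hη
  refine ⟨A, fun L z F hz1 hzL => ?_⟩
  have hq : 2 ≤ Fintype.card K := Fintype.one_lt_card
  have hPU : ∀ P ∈ PU K z, P.Monic ∧ Irreducible P ∧ P.natDegree ≤ z := by
    intro P hP
    rw [mem_PU] at hP
    exact hP
  have hex : ∀ P : K[X], ∃ r : K[X], (P ∈ PU K z → r.degree < P.degree ∧
      ∀ t : K[X], P ∣ F + 1 * t ^ 2 ↔ P ∣ t - r) := by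
    intro P
    by_cases hP : P ∈ PU K z
    · obtain ⟨r, h1, h2⟩ := hr K 1 F P (hPU P hP).1 (hPU P hP).2.1
        (fun h => (hPU P hP).2.1.not_isUnit (isUnit_of_dvd_one h))
      exact ⟨r, fun _ => ⟨h1, h2⟩⟩
    · exact ⟨0, fun h => absurd h hP⟩
  choose rP hrP using hex
  have key := hA L z (PU K z) (fun P => {rP P}) 1 0 hz1 hzL
    (fun P hP => ⟨(hPU P hP).1, (hPU P hP).2.1, (hPU P hP).2.2, isCoprime_one_left⟩)
    (fun P hP => by
      refine ⟨by rw [Finset.card_singleton], ?_, ?_⟩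
      · rw [Finset.card_singleton]
        have h1 : 1 ≤ P.natDegree := (hPU P hP).2.1.natDegree_pos
        calc 1 < Fintype.card K := hq
          _ = Fintype.card K ^ 1 := (pow_one _).symm
          _ ≤ Fintype.card K ^ P.natDegree := Nat.pow_le_pow_right (by omega) h1
      · intro r hr'
        rw [Finset.mem_singleton] at hr'
        rw [hr']
        exact (hrP P hP).1)
  simp only [Finset.card_singleton, Nat.cast_one] at key
  have hsif : {u : K[X] | u.degree < (L : WithBot ℕ) ∧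
      ∀ P ∈ PU K z, ∀ r ∈ ({rP P} : Finset K[X]), ¬ P ∣ 0 + 1 * u - r} =
      {t : K[X] | t.degree < (L : WithBot ℕ) ∧ Sft z (F + t ^ 2)} := by
    ext t
    simp only [Set.mem_ofPred_eq, Finset.mem_singleton, forall_eq, zero_add, one_mul]
    refine and_congr_right fun _ => ?_
    constructor
    · intro h P hP1 hP2 hP3
      by_contra hlt
      have hP : P ∈ PU K z := mem_PU.2 ⟨hP1, hP2, not_lt.1 hlt⟩
      have h4 := (hrP P hP).2 t
      rw [one_mul] at h4
      exact h P hP (h4.1 hP3)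
    · intro h P hP hd
      have h4 := (hrP P hP).2 t
      rw [one_mul] at h4
      have h1 := h P (hPU P hP).1 (hPU P hP).2.1 (h4.2 hd)
      have h2 := (hPU P hP).2.2
      omega
  rw [hsif] at key
  obtain ⟨k1, k2, k3⟩ := key
  refine ⟨k1, k2, fun B hB hb => ?_⟩
  have k4 := k3 (fun t => (mob (F + t ^ 2) : ℝ)) B (fun t => mob_abs _) hB
    (fun D r L' hD _ hDL hDA hrD => hb D r L' hD hDA hDL hrD)
  have k5 : (((1 : ℕ) + 1 : ℝ) * Fintype.card K) = (2 : ℝ) * Fintype.card K := by norm_num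
  refine k4.trans (le_of_eq ?_)
  norm_num [VV]

end Pool.Agent.H337.SQ
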